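import Mathlib
import Pool.Agent.TH671.DU.Ex
import Pool.Agent.TH671.DU.Dich

/-!
# Smoothability defects of disjoint unions and of their powers

The smoothability defect is additive under disjoint unions. Hence the defects of the powers of
`Γ ⊔ (c points)`, and of any disjoint union of powers of `Γ`, are determined by the defects of the
powers of `Γ`. With `rate Γ = lim (deg Γ^n + δ(Γ^n))^{1/n}` this gives
`rate (⊔ᵢ Γ^{e i}) = ∑ᵢ (rate Γ)^{e i}`, so that Q1 holds for `⊔ᵢ Γ^{e i}` if and only if it holds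
for `Γ`: it suffices to prove Q1 for schemes almost all of whose points are reduced. The exponent `1`
in Q1 cannot be replaced by a smaller one.
-/

set_option autoImplicit false

namespace Pool.Agent.Results.MP_44217d_ag.DisjointUnions

open Pool.Agent.H826R3.SM Pool.Agent.TH671.DU Filter Topology TensorProduct

/-- Additivity: (1) `δ(Γ ⊔ Γ') = δ(Γ) + δ(Γ')` and the formula for `δ((Γ ⊔ Γ')^n)`, (2) the
formulas for the defects of the powers of `Γ ⊔ (c points)` and of `Γ^{e 0} ⊔ ⋯ ⊔ Γ^{e (l-1)}`. -/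
def Formulas (k : Type) [Field k] : Prop :=
  (∀ (A B : Type) [CommRing A] [Algebra k A] [Module.Finite k A] [CommRing B] [Algebra k B]
    [Module.Finite k B], defect k (A × B) = defect k A + defect k B ∧
      ∀ n : ℕ, defect k (Pow k (A × B) n) =
        ∑ r ∈ Finset.range (n + 1), n.choose r * defect k (Pow k A r ⊗[k] Pow k B (n - r))) ∧
  (∀ (A : Type) [CommRing A] [Algebra k A] [Module.Finite k A] (n : ℕ),
    (∀ c : ℕ, defect k (Pow k (A × (Fin c → k)) n) =
      ∑ r ∈ Finset.range (n + 1), n.choose r * (c ^ (n - r) * defect k (Pow k A r))) ∧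
    ∀ (l : ℕ) (e : Fin l → ℕ), defect k (Pow k (PowUnion k A e) n) =
      ∑ f : Fin n → Fin l, defect k (Pow k A (∑ j, e (f j))))

/-- `rate k A` is the growth rate: (3) it is the limit of `(deg Γ^n + δ(Γ^n))^{1/n}`, with the
bounds `rate^n ≤ d^n + δ(Γ^n) ≤ C (rate + η)^n`. -/
def GrowthRate (k : Type) [Field k] : Prop :=
  ∀ (A : Type) [CommRing A] [Algebra k A] [Module.Finite k A] [Nontrivial A],
    Tendsto (fun n : ℕ =>
      ((Module.finrank k (Pow k A (n + 1)) + defect k (Pow k A (n + 1)) : ℕ) : ℝ) ^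
        (1 / ((n : ℝ) + 1))) atTop (𝓝 (rate k A)) ∧
    (∀ n : ℕ, rate k A ^ n ≤ (Module.finrank k A : ℝ) ^ n + defect k (Pow k A n)) ∧
    ∀ η : ℝ, 0 < η → ∃ C : ℝ, ∀ n : ℕ,
      (Module.finrank k A : ℝ) ^ n + defect k (Pow k A n) ≤ C * (rate k A + η) ^ n

/-- (5) growth rates, and Q1, of disjoint unions of powers of `Γ`, (6) of `Γ ⊔ (c points)` and (7)
of `Γ ⊔ Γ'`. -/
def Unions (k : Type) [Field k] : Prop :=
  ∀ (A : Type) [CommRing A] [Algebra k A] [Module.Finite k A] [Nontrivial A],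
    (∀ (l : ℕ) (e : Fin l → ℕ),
      (1 ≤ l → rate k (PowUnion k A e) = ∑ i, rate k A ^ e i) ∧
      ((∃ i, 1 ≤ e i) → (QOne k (PowUnion k A e) ↔ QOne k A))) ∧
    (∀ c : ℕ, rate k (A × (Fin c → k)) = rate k A + c ∧
      (QOne k (A × (Fin c → k)) ↔ QOne k A)) ∧
    ∀ (B : Type) [CommRing B] [Algebra k B] [Module.Finite k B] [Nontrivial B],
      rate k (A × B) ≤ rate k A + rate k B ∧ (QOne k A → QOne k B → QOne k (A × B))

/-- `k` is an algebraically closed field, `A`, `B` are finite-dimensional commutative `k`-algebras,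
`Γ = Spec A`, `d = finrank k A`; `defect k A` is the smoothability defect `δ(Γ)`,
`Pow k A n` the coordinate ring of `Γ^n`, `A × B` that of the disjoint union, `Fin c → k` that of
`c` reduced points, `PowUnion k A e` that of `Γ^{e 0} ⊔ ⋯ ⊔ Γ^{e (l - 1)}`, `QOne k A` is Q1 for
`Γ`, and `rate k A` is the infimum over `n ≥ 1` of `(deg Γ^n + δ(Γ^n))^{1/n}`. After the parts
(1)-(3) and (5)-(7) of the definitions: (4) Q1 holds for `Γ` if and only if `rate k A = d`, and
if it does not hold then for some `ε > 0` its ratio tends to infinity. (8) For every `f`, Q1 for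
the schemes `Γ ⊔ (f (deg Γ) points)`, `Γ` local, implies Q1. (9) The exponent `1` is optimal. -/
theorem result (k : Type) [Field k] [IsAlgClosed k] :
    Formulas k ∧ GrowthRate k ∧ Unions k ∧
    (∀ (A : Type) [CommRing A] [Algebra k A] [Module.Finite k A] [Nontrivial A],
      (QOne k A ↔ rate k A = Module.finrank k A) ∧
      (QOne k A ∨ ∃ ε : ℝ, 0 < ε ∧ Tendsto (fun n : ℕ => (defect k (Pow k A n) : ℝ) /
        (Module.finrank k A : ℝ) ^ ((1 + ε) * (n : ℝ))) atTop atTop)) ∧
    (∀ f : ℕ → ℕ,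
      (∀ (A : Type) [CommRing A] [Algebra k A] [Module.Finite k A] [Nontrivial A], QOne k A) ↔
      ∀ (A : Type) [CommRing A] [Algebra k A] [Module.Finite k A] [IsLocalRing A],
        QOne k (A × (Fin (f (Module.finrank k A)) → k))) ∧
    (∀ τ : ℝ, τ < 1 → ∃ (A : Type) (_ : CommRing A) (_ : Algebra k A), Module.Finite k A ∧
      Nontrivial A ∧ ∀ n : ℕ, 1 ≤ n →
        (n : ℝ) * (Module.finrank k A : ℝ) ^ (τ * n) ≤ defect k (Pow k A n)) := by
  refine ⟨⟨?_, ?_⟩, ?_, ?_, ?_, qOne_almost_reduced, exists_sharp⟩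
  · intro A B _ _ _ _ _ _
    exact ⟨defect_prod k A B, defect_pow_prod A B⟩
  · intro A _ _ _ n
    exact ⟨fun c => defect_pow_points A c n, fun l e => defect_powUnion A e n⟩
  · intro A _ _ _ _
    exact ⟨rate_tendsto A, rate_lower A, rate_upper A⟩
  · intro A _ _ _ _
    refine ⟨fun l e => ⟨rate_powUnion A e, qOne_powUnion A e⟩,
      fun c => ⟨rate_add_points A c, qOne_add_points A c⟩, ?_⟩
    intro B _ _ _ _
    exact ⟨rate_prod_le A B, qOne_prod A B⟩
  · intro A _ _ _ _
    exact ⟨qOne_iff_rate A, dichotomy A⟩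

end Pool.Agent.Results.MP_44217d_ag.DisjointUnions
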