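import Pool.Agent.H826R3.SM.Final
import Pool.Agent.H88R3.MM.Power

set_option autoImplicit false

/-!
# The schemes of matrix multiplication: the exact threshold is half the exponent

For the algebras `A_m / 𝔪³` (`A_m` the apolar algebra of `tr(X³)`, `X` an `m × m` matrix) the least
degree of a finite smoothable scheme containing the `n`-th power of `Γ_m = Spec (A_m / 𝔪³)` is
`d ^ ((ω/2 + o(1)) n)`, `d = deg Γ_m`, where `o(1) → 0` as `m → ∞`, uniformly in `n`; here `ω` is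
the exponent of matrix multiplication over `k`.
-/

namespace Pool.Agent.Results.MP_44217d_ag.MatrixThreshold

open Filter Topology Pool.Agent.H826R3.SM

/-! ### Strassen's decomposition and the bounds of the exponent -/

/-- Strassen, first factors -/
def sa : Fin 7 → Fin 2 → Fin 2 → ℤ :=
  ![![![1, 0], ![0, 1]], ![![0, 0], ![1, 1]], ![![1, 0], ![0, 0]], ![![0, 0], ![0, 1]],
    ![![1, 1], ![0, 0]], ![![-1, 0], ![1, 0]], ![![0, 1], ![0, -1]]]

/-- Strassen, second factors -/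
def sb : Fin 7 → Fin 2 → Fin 2 → ℤ :=
  ![![![1, 0], ![0, 1]], ![![1, 0], ![0, 0]], ![![0, 1], ![0, -1]], ![![-1, 0], ![1, 0]],
    ![![0, 0], ![0, 1]], ![![1, 1], ![0, 0]], ![![0, 0], ![1, 1]]]

/-- Strassen, coefficients of the entries of the transposed product -/
def sc : Fin 7 → Fin 2 → Fin 2 → ℤ :=
  ![![![1, 0], ![0, 1]], ![![0, 1], ![0, -1]], ![![0, 0], ![1, 1]], ![![1, 1], ![0, 0]],
    ![![-1, 0], ![1, 0]], ![![0, 0], ![0, 1]], ![![1, 0], ![0, 0]]]

theorem strassen_int : ∀ i j j' k k' l : Fin 2,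
    (if j = j' ∧ k = k' ∧ l = i then (1 : ℤ) else 0) =
      ∑ t : Fin 7, sa t i j * sb t j' k * sc t k' l := by
  decide +kernel

theorem hasRank_strassen (F : Type) [Field F] : HasRank F 2 7 := by
  refine ⟨fun t i j => (sa t i j : F), fun t i j => (sb t i j : F), fun t i j => (sc t i j : F),
    fun i j j' k k' l => ?_⟩
  have h := congrArg (fun z : ℤ => (z : F)) (strassen_int i j j' k k' l)
  simp only [Int.cast_ite, Int.cast_one, Int.cast_zero, Int.cast_sum, Int.cast_mul] at h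
  exact h

theorem rpow_omega_le (F : Type) [Field F] {m r : ℕ} (hm : 1 ≤ m) (H : HasRank F m r) :
    (m : ℝ) ^ omegaMM F ≤ r := by
  obtain ⟨a, b, c, h⟩ := H
  have hAD : AD F (Fin m) (Fin r) 0 := by
    refine ⟨fun t i j => Polynomial.C (a t i j), fun t i j => Polynomial.C (b t i j),
      fun t i j => Polynomial.C (c t i j),
      fun i j j' k k' l => Polynomial.C (if j = j' ∧ k = k' ∧ l = i then (1 : F) else 0), ?_⟩
    intro i j j' k k' l
    refine ⟨?_, by simp only [Polynomial.eval_C]⟩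
    simp only
    rw [h i j j' k k' l]
    simp only [map_sum, map_mul, pow_zero, one_mul]
  exact hAD.omega_le hm

theorem two_rpow_omega_le (F : Type) [Field F] : (2 : ℝ) ^ omegaMM F ≤ 7 := by
  have := rpow_omega_le F (m := 2) (by norm_num) (hasRank_strassen F)
  simpa using this

theorem sq_le_rk (F : Type) [Field F] (m : ℕ) : m ^ 2 ≤ rk F m := by
  obtain ⟨U, V, W, h⟩ := hasRank_rk (F := F) m
  have h1 : Pool.Agent.H88R3.MM.IsAlg U V fun t k' l => W t l k' :=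
    Pool.Agent.H88R3.MM.isAlg_of_coeff fun i i' j j' k k' => by
      have := h i j j' k k' i'
      rw [← this]
      refine if_congr ?_ rfl rfl
      constructor
      · rintro ⟨rfl, rfl, rfl⟩
        exact ⟨rfl, rfl, rfl⟩
      · rintro ⟨rfl, rfl, rfl⟩
        exact ⟨rfl, rfl, rfl⟩
  have h2 := h1.card_le_U
  have h3 : ∑ l, (Matrix.rank (U l)) ≤ rk F m * m := by
    refine (Finset.sum_le_card_nsmul Finset.univ _ m fun l _ => ?_).trans ?_
    · exact (Matrix.rank_le_width (U l))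
    · simp
  simp only [Fintype.card_fin] at h2
  rcases Nat.eq_zero_or_pos m with hm | hm
  · subst hm
    simp
  · have h4 : m ^ 2 * m ≤ rk F m * m := by
      refine le_trans (le_of_eq (by ring)) (h2.trans h3)
    exact Nat.le_of_mul_le_mul_right h4 hm

theorem two_le_omega (F : Type) [Field F] : 2 ≤ omegaMM F := by
  refine le_csInf omega_set_nonempty ?_
  rintro τ ⟨C, hC⟩
  by_contra hτ
  push Not at hτ
  have h1 : Tendsto (fun m : ℕ => C * (m : ℝ) ^ (-(2 - τ))) atTop (𝓝 (C * 0)) :=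
    ((tendsto_rpow_neg_atTop (by linarith)).comp tendsto_natCast_atTop_atTop).const_mul C
  rw [mul_zero] at h1
  obtain ⟨m, hm, hm1⟩ := ((h1.eventually (gt_mem_nhds (show (0 : ℝ) < 1 by norm_num))).and
    (eventually_ge_atTop 1)).exists
  have hm0 : (0 : ℝ) < m := by exact_mod_cast hm1
  have h2 : ((m : ℝ)) ^ 2 ≤ C * (m : ℝ) ^ τ := by
    refine le_trans ?_ (hC m)
    exact_mod_cast sq_le_rk F m
  have h3 : (m : ℝ) ^ (-(2 - τ)) * (m : ℝ) ^ 2 = (m : ℝ) ^ τ := by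
    rw [← Real.rpow_two, ← Real.rpow_add hm0]
    congr 1
    ring
  have h4 : (0 : ℝ) < (m : ℝ) ^ 2 := by positivity
  rw [← h3] at h2
  nlinarith

theorem omega_le (F : Type) [Field F] : omegaMM F < 2.808 := by
  by_contra hcon
  push Not at hcon
  have h1 : (2 : ℝ) ^ (2.808 : ℝ) ≤ 7 :=
    (Real.rpow_le_rpow_of_exponent_le (by norm_num) hcon).trans (two_rpow_omega_le F)
  have h2 : ((2 : ℝ) ^ (2.808 : ℝ)) ^ (125 : ℕ) ≤ 7 ^ (125 : ℕ) :=
    pow_le_pow_left₀ (by positivity) h1 125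
  rw [← Real.rpow_natCast, ← Real.rpow_mul (by norm_num)] at h2
  have e : (2.808 : ℝ) * ((125 : ℕ) : ℝ) = ((351 : ℕ) : ℝ) := by norm_num
  rw [e, Real.rpow_natCast] at h2
  have h3 : (7 : ℕ) ^ 125 < 2 ^ 351 := by decide +kernel
  have h4 : (7 : ℝ) ^ 125 < 2 ^ 351 := by exact_mod_cast h3
  exact absurd h2 (not_le.2 h4)

/-! ### The two-sided bound -/

variable {k : Type} [Field k]

/-- the degree of `Γ_m = Spec (A_m / 𝔪³)` -/
noncomputable def deg (k : Type) [Field k] (m : ℕ) : ℕ := Module.finrank k (Abar k m)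

/-- the least degree of a finite smoothable scheme containing the `n`-th power of `Γ_m`: the degree
of the power plus its smoothability defect -/
noncomputable def cover (k : Type) [Field k] (m n : ℕ) : ℕ :=
  deg k m ^ n + defect k (Pow k (Abar k m) n)

theorem upper_bound [IsAlgClosed k] [CharZero k] {η : ℝ} (hη : 0 < η) :
    ∀ᶠ m : ℕ in atTop, ∀ n : ℕ, 1 ≤ n →
      (cover k m n : ℝ) ≤ (deg k m : ℝ) ^ ((omegaMM k / 2 + η) * n) := by
  set ω := omegaMM k with hωdef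
  have hω2 : 2 ≤ ω := two_le_omega k
  obtain ⟨τ, ⟨C, hC⟩, hτ⟩ := exists_lt_of_csInf_lt (omega_set_nonempty (F := k))
    (show omegaMM k < ω + η by rw [← hωdef]; linarith)
  have hlim : Tendsto (fun m : ℕ => 12 * |C| * ((m : ℝ) ^ (-(ω + 2 * η - τ)))) atTop (𝓝 0) := by
    have h1 : Tendsto (fun m : ℕ => (m : ℝ) ^ (-(ω + 2 * η - τ))) atTop (𝓝 0) :=
      (tendsto_rpow_neg_atTop (by linarith)).comp tendsto_natCast_atTop_atTop
    have h2 := h1.const_mul (12 * |C|)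
    rwa [mul_zero] at h2
  have hlim2 : Tendsto (fun m : ℕ => 2 * ((m : ℝ) ^ (-(2 * η)))) atTop (𝓝 0) := by
    have h1 : Tendsto (fun m : ℕ => (m : ℝ) ^ (-(2 * η))) atTop (𝓝 0) :=
      (tendsto_rpow_neg_atTop (by linarith)).comp tendsto_natCast_atTop_atTop
    have h2 := h1.const_mul 2
    rwa [mul_zero] at h2
  filter_upwards [hlim.eventually (gt_mem_nhds (show (0 : ℝ) < 1 by norm_num)),
    hlim2.eventually (gt_mem_nhds (show (0 : ℝ) < 1 by norm_num)),
    eventually_ge_atTop 1] with m hm hm' hm1 n hn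
  have hm0 : (0 : ℝ) < m := by exact_mod_cast hm1
  set d : ℝ := (deg k m : ℝ) with hd
  have hdm : (m : ℝ) ^ 2 ≤ d := by
    rw [hd]
    exact_mod_cast le_abar_finrank (k := k) m
  have hd0 : 0 < d := lt_of_lt_of_le (by positivity) hdm
  have hd1 : 1 ≤ d := le_trans (by
    have : (1 : ℝ) ≤ m := by exact_mod_cast hm1
    nlinarith) hdm
  set X : ℝ := d ^ (ω / 2 + η) with hX
  have hX0 : 0 < X := Real.rpow_pos_of_pos hd0 _
  have hmX : (m : ℝ) ^ (ω + 2 * η) ≤ X := by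
    have : (m : ℝ) ^ (ω + 2 * η) = ((m : ℝ) ^ 2) ^ (ω / 2 + η) := by
      rw [← Real.rpow_two, ← Real.rpow_mul hm0.le]
      congr 1
      ring
    rw [this]
    exact Real.rpow_le_rpow (by positivity) hdm (by linarith)
  have hR : 6 * (rk k m : ℝ) ≤ X / 2 := by
    have h1 : (rk k m : ℝ) ≤ |C| * (m : ℝ) ^ τ :=
      (hC m).trans (mul_le_mul_of_nonneg_right (le_abs_self C) (Real.rpow_nonneg hm0.le _))
    have h2 : (m : ℝ) ^ τ = (m : ℝ) ^ (-(ω + 2 * η - τ)) * (m : ℝ) ^ (ω + 2 * η) := by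
      rw [← Real.rpow_add hm0]
      congr 1
      ring
    have h3 : 12 * (|C| * (m : ℝ) ^ τ) ≤ 1 * (m : ℝ) ^ (ω + 2 * η) := by
      rw [h2]
      calc 12 * (|C| * ((m : ℝ) ^ (-(ω + 2 * η - τ)) * (m : ℝ) ^ (ω + 2 * η)))
          = (12 * |C| * (m : ℝ) ^ (-(ω + 2 * η - τ))) * (m : ℝ) ^ (ω + 2 * η) := by ring
        _ ≤ 1 * (m : ℝ) ^ (ω + 2 * η) :=
            mul_le_mul_of_nonneg_right hm.le (Real.rpow_nonneg hm0.le _)
    linarith
  have hdX : d ≤ X / 2 := by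
    have h1 : X = d * d ^ (ω / 2 + η - 1) := by
      rw [hX]
      nth_rewrite 2 [← Real.rpow_one d]
      rw [← Real.rpow_add hd0]
      congr 1
      ring
    have h2 : (m : ℝ) ^ (2 * η) ≤ d ^ (ω / 2 + η - 1) := by
      calc (m : ℝ) ^ (2 * η) = ((m : ℝ) ^ 2) ^ η := by
            rw [← Real.rpow_two, ← Real.rpow_mul hm0.le]
        _ ≤ d ^ η := Real.rpow_le_rpow (by positivity) hdm hη.le
        _ ≤ d ^ (ω / 2 + η - 1) := Real.rpow_le_rpow_of_exponent_le hd1 (by linarith)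
    have h3 : 2 ≤ (m : ℝ) ^ (2 * η) := by
      rw [Real.rpow_neg hm0.le] at hm'
      have h4 : 0 < (m : ℝ) ^ (2 * η) := Real.rpow_pos_of_pos hm0 _
      rw [← div_eq_mul_inv, div_lt_one h4] at hm'
      exact hm'.le
    rw [h1]
    nlinarith
  obtain ⟨D, hD, hS⟩ := upper (k := k) hm1 n
  have h1 : (defect k (Pow k (Abar k m) n) : ℝ) ≤ (6 * (rk k m : ℝ)) ^ n := by
    exact_mod_cast (defect_le hS).trans hD
  have h2 : (cover k m n : ℝ) ≤ d ^ n + (6 * (rk k m : ℝ)) ^ n := by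
    unfold cover
    push_cast
    linarith
  have h3 : d ^ n ≤ (X / 2) ^ n := pow_le_pow_left₀ hd0.le hdX n
  have h4 : (6 * (rk k m : ℝ)) ^ n ≤ (X / 2) ^ n := pow_le_pow_left₀ (by positivity) hR n
  have h5 : (2 : ℝ) * (X / 2) ^ n ≤ X ^ n := by
    rw [div_pow]
    have h6 : (2 : ℝ) ≤ 2 ^ n := by
      calc (2 : ℝ) = 2 ^ 1 := by norm_num
        _ ≤ 2 ^ n := pow_le_pow_right₀ (by norm_num) hn
    have h7 : 0 < X ^ n := by positivity
    rw [mul_div_assoc', div_le_iff₀ (by positivity)]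
    nlinarith
  have h6 : d ^ ((ω / 2 + η) * (n : ℝ)) = X ^ n := by
    rw [hX, Real.rpow_mul hd0.le, Real.rpow_natCast]
  rw [h6]
  linarith

theorem lower_bound [IsAlgClosed k] [CharZero k] {η : ℝ} (hη : 0 < η) :
    ∀ᶠ m : ℕ in atTop, ∀ n : ℕ, 1 ≤ n →
      (deg k m : ℝ) ^ ((omegaMM k / 2 - η) * n) ≤ cover k m n := by
  wlog hη1 : η ≤ 1 generalizing η
  · filter_upwards [this (η := 1) one_pos le_rfl, eventually_ge_atTop 1] with m hm hm1 n hn
    refine le_trans ?_ (hm n hn)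
    have hd1 : (1 : ℝ) ≤ (deg k m : ℝ) := by
      have h1 := le_abar_finrank (k := k) m
      have h2 : 1 ≤ m ^ 2 := Nat.one_le_pow _ _ hm1
      exact_mod_cast h2.trans h1
    refine Real.rpow_le_rpow_of_exponent_le hd1 ?_
    have hn0 : (0 : ℝ) ≤ n := Nat.cast_nonneg n
    push Not at hη1
    nlinarith
  set ω := omegaMM k with hωdef
  have hω2 : 2 ≤ ω := two_le_omega k
  have hlim : Tendsto (fun m : ℕ => ((1 / 5 : ℝ) ^ ω / 3 ^ (ω / 2 - η)) *
      ((m : ℝ) ^ (2 * η))) atTop atTop := by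
    have h1 : Tendsto (fun m : ℕ => (m : ℝ) ^ (2 * η)) atTop atTop :=
      (tendsto_rpow_atTop (by linarith)).comp tendsto_natCast_atTop_atTop
    exact h1.const_mul_atTop (by positivity)
  filter_upwards [hlim.eventually_ge_atTop 1, eventually_ge_atTop 3] with m hm hm3 n hn
  have hm0 : (0 : ℝ) < m := by exact_mod_cast (by omega : 0 < m)
  have hm1 : (1 : ℝ) ≤ m := by exact_mod_cast (by omega : 1 ≤ m)
  set d : ℝ := (deg k m : ℝ) with hd
  have hdm : (m : ℝ) ^ 2 ≤ d := by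
    rw [hd]
    exact_mod_cast le_abar_finrank (k := k) m
  have hd0 : 0 < d := lt_of_lt_of_le (by positivity) hdm
  have hdu : d ≤ 3 * (m : ℝ) ^ 2 := by
    have h1 : d ≤ 2 * (m : ℝ) ^ 2 + 1 := by
      rw [hd]
      exact_mod_cast abar_finrank_le (k := k) m
    nlinarith
  have hde : d ^ (ω / 2 - η) ≤ 3 ^ (ω / 2 - η) * (m : ℝ) ^ (ω - 2 * η) := by
    have h1 : (m : ℝ) ^ (ω - 2 * η) = ((m : ℝ) ^ 2) ^ (ω / 2 - η) := by
      rw [← Real.rpow_two, ← Real.rpow_mul hm0.le]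
      congr 1
      ring
    rw [h1, ← Real.mul_rpow (by norm_num) (by positivity)]
    exact Real.rpow_le_rpow (by linarith) hdu (by linarith)
  have hq : (m : ℝ) / 5 ≤ ((m / 3 : ℕ) : ℝ) := by
    have h1 : m ≤ 5 * (m / 3) := by omega
    have h2 : (m : ℝ) ≤ 5 * ((m / 3 : ℕ) : ℝ) := by exact_mod_cast h1
    linarith
  set Q : ℝ := ((m / 3 : ℕ) : ℝ) ^ ω with hQ
  have hQd : d ^ (ω / 2 - η) ≤ Q := by
    have h1 : (1 / 5 : ℝ) ^ ω * (m : ℝ) ^ ω ≤ Q := by
      rw [← Real.mul_rpow (by norm_num) hm0.le]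
      refine Real.rpow_le_rpow (by positivity) ?_ (by linarith)
      linarith
    have h2 : (m : ℝ) ^ ω = (m : ℝ) ^ (2 * η) * (m : ℝ) ^ (ω - 2 * η) := by
      rw [← Real.rpow_add hm0]
      congr 1
      ring
    have h3 : (0 : ℝ) < 3 ^ (ω / 2 - η) := Real.rpow_pos_of_pos (by norm_num) _
    have h4 : (0 : ℝ) < (m : ℝ) ^ (ω - 2 * η) := Real.rpow_pos_of_pos hm0 _
    calc d ^ (ω / 2 - η) ≤ 1 * (3 ^ (ω / 2 - η) * (m : ℝ) ^ (ω - 2 * η)) := by linarith
      _ ≤ (((1 / 5 : ℝ) ^ ω / 3 ^ (ω / 2 - η)) * ((m : ℝ) ^ (2 * η))) *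
            (3 ^ (ω / 2 - η) * (m : ℝ) ^ (ω - 2 * η)) :=
          mul_le_mul_of_nonneg_right hm (by positivity)
      _ = (1 / 5 : ℝ) ^ ω * (m : ℝ) ^ ω := by
          rw [h2]
          field_simp
      _ ≤ Q := h1
  obtain ⟨D, -, hS⟩ := upper (k := k) (m := m) (by omega) n
  have h1 := lower' hm3 (defect_spec hS)
  rw [finrank_pow, ← hωdef, ← hQ] at h1
  have h2 : d ^ ((ω / 2 - η) * (n : ℝ)) = (d ^ (ω / 2 - η)) ^ n := by
    rw [Real.rpow_mul hd0.le, Real.rpow_natCast]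
  rw [h2]
  refine le_trans (pow_le_pow_left₀ (by positivity) hQd n) ?_
  unfold cover deg
  exact h1

/-- Let `k` be an algebraically closed field of characteristic zero, `ω` (`omegaMM k`) the exponent
of matrix multiplication over `k`, `A_m` the apolar algebra of the cubic `tr(X³)` in the entries of
an `m × m` matrix, `Γ_m = Spec (A_m / 𝔪³)`, `d_m = deg Γ_m` and `δ` the smoothability defect.

(1) For every `η > 0`, all large `m` and all `n ≥ 1`, the least degree `d_m ^ n + δ(Γ_m^{×n})` of a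
finite smoothable scheme containing `Γ_m^{×n}` lies between `d_m ^ ((ω/2 - η) n)` and
`d_m ^ ((ω/2 + η) n)`.
(2) If `1 + ε > ω/2` then `δ(Γ_m^{×n}) / d_m^{(1+ε) n} → 0` (`n → ∞`) for all large `m`.
(3) If `0 < ε` and `1 + ε < ω/2` then `δ(Γ_m^{×n}) / d_m^{(1+ε) n} → ∞` for all large `m`.
(4) `δ(Γ_m^{×n}) / d_m^{(1+ε) n} → 0` for every `ε > 0` and all large `m` (depending on `ε`) if and
only if `ω = 2`.
(5) In particular (Strassen's algorithm) the limit is `0` for all large `m` if `ε ≥ 0.404`. -/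
theorem result (k : Type) [Field k] [IsAlgClosed k] [CharZero k] :
    (∀ η : ℝ, 0 < η → ∀ᶠ m : ℕ in atTop, ∀ n : ℕ, 1 ≤ n →
      (deg k m : ℝ) ^ ((omegaMM k / 2 - η) * n) ≤
        ((deg k m ^ n + defect k (Pow k (Abar k m) n) : ℕ) : ℝ) ∧
      ((deg k m ^ n + defect k (Pow k (Abar k m) n) : ℕ) : ℝ) ≤
        (deg k m : ℝ) ^ ((omegaMM k / 2 + η) * n)) ∧
    (∀ ε : ℝ, 0 < ε → omegaMM k / 2 < 1 + ε → ∀ᶠ m : ℕ in atTop,
      Tendsto (fun n : ℕ => (defect k (Pow k (Abar k m) n) : ℝ) /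
        (deg k m : ℝ) ^ ((1 + ε) * (n : ℝ))) atTop (𝓝 0)) ∧
    (∀ ε : ℝ, 0 < ε → 1 + ε < omegaMM k / 2 → ∀ᶠ m : ℕ in atTop,
      Tendsto (fun n : ℕ => (defect k (Pow k (Abar k m) n) : ℝ) /
        (deg k m : ℝ) ^ ((1 + ε) * (n : ℝ))) atTop atTop) ∧
    ((∀ ε : ℝ, 0 < ε → ∀ᶠ m : ℕ in atTop,
      Tendsto (fun n : ℕ => (defect k (Pow k (Abar k m) n) : ℝ) /
        (deg k m : ℝ) ^ ((1 + ε) * (n : ℝ))) atTop (𝓝 0)) ↔ omegaMM k = 2) ∧
    (∀ ε : ℝ, 0.404 ≤ ε → ∀ᶠ m : ℕ in atTop,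
      Tendsto (fun n : ℕ => (defect k (Pow k (Abar k m) n) : ℝ) /
        (deg k m : ℝ) ^ ((1 + ε) * (n : ℝ))) atTop (𝓝 0)) := by
  have h2 : ∀ ε : ℝ, 0 < ε → omegaMM k / 2 < 1 + ε → ∀ᶠ m : ℕ in atTop,
      Tendsto (fun n : ℕ => (defect k (Pow k (Abar k m) n) : ℝ) /
        (deg k m : ℝ) ^ ((1 + ε) * (n : ℝ))) atTop (𝓝 0) := fun ε hε h =>
    ratio_tendsto_zero hε (by linarith)
  have h3 : ∀ ε : ℝ, 0 < ε → 1 + ε < omegaMM k / 2 → ∀ᶠ m : ℕ in atTop,
      Tendsto (fun n : ℕ => (defect k (Pow k (Abar k m) n) : ℝ) /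
        (deg k m : ℝ) ^ ((1 + ε) * (n : ℝ))) atTop atTop := fun ε hε h =>
    ratio_tendsto_atTop hε (by linarith)
  refine ⟨fun η hη => ?_, h2, h3, ⟨fun h => ?_, fun h ε hε => h2 ε hε (by rw [h]; linarith)⟩,
    fun ε hε => h2 ε (by linarith) ?_⟩
  · filter_upwards [lower_bound (k := k) hη, upper_bound (k := k) hη] with m ha hb n hn
    exact ⟨ha n hn, hb n hn⟩
  · by_contra hne
    have h4 : 2 < omegaMM k := lt_of_le_of_ne (two_le_omega k) (Ne.symm hne)
    obtain ⟨m, hm1, hm2⟩ := ((h ((omegaMM k / 2 - 1) / 2) (by linarith)).and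
      (h3 ((omegaMM k / 2 - 1) / 2) (by linarith) (by linarith))).exists
    exact not_tendsto_nhds_of_tendsto_atTop hm2 0 hm1
  · have := omega_le k
    norm_num at this hε ⊢
    linarith

end Pool.Agent.Results.MP_44217d_ag.MatrixThreshold
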