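import Mathlib
import Pool.Agent.TH671.SD.KThree

/-!
# Smoothability defects and asymptotic ranks of tensors of every order

For a tensor `T` of order `m` over a field `K` let `Γ_T` be the apolar scheme of the multilinear
form of `T`, i.e. `Spec` of `ApolarAlg (mform T)`. Its degree is the sum of the ranks of the `2 ^ m`
flattenings of `T`. The degrees of the smoothable schemes which contain the powers `Γ_T^{×n}` are
governed by the (asymptotic) rank of `T`. This determines, for the schemes of the large Kronecker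
powers of `T`, for which `ε` the ratio of Q1 tends to `0`, and it shows that Q1 implies that the
asymptotic rank of every nonzero tensor of every order is the largest rank of a flattening, in
particular that all concise tensors of order three have minimal asymptotic rank.
-/

set_option autoImplicit false

namespace Pool.Agent.Results.MP_44217d_ag.TensorThreshold

open Pool.Agent.H826R3.SM Pool.Agent.TH671.SD Filter Topology
open Pool.Agent.W329.AR (Conc arank)
open Pool.Agent.TH671.AS (dsum)
open Pool.Agent.TH671.SH (wten)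

/-- `K` is any field. Notation: `tpow T N` is the `N`-th Kronecker power of the tensor `T` of order
`m`, `trk` the rank, `tarank` the asymptotic rank, `mflat T` the largest rank of a flattening
`flat T S`; `dgT T` is the degree of `Γ_T`, `dlT T n` the smoothability defect of `Γ_T^{×n}`,
`ratT T ε n = dlT T n / (dgT T) ^ ((1 + ε) n)`.
(1) For every commutative `K`-algebra `A`, if the `n`-th power of `Spec A` is contained in a finite
smoothable scheme of degree `D`, `n ≥ 1`, then `tarank V ^ n ≤ D` for every tensor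
`V (a₁, …, aₘ) = γ (p₁(a₁) ⋯ pₘ(aₘ))`.
(2) The degree of `Γ_T` is the sum of the ranks of all flattenings of `T`, and
`tarank T ^ n ≤ deg (Γ_T^{×n}) + δ (Γ_T^{×n}) ≤ (2 ^ m * trk T) ^ n` for all `n ≥ 1`.
(3) For every `η > 0` and all large `N`, uniformly in `n ≥ 1`, `deg + δ` of the `n`-th power of
`Γ_{T^N}` is between `tarank T ^ (N n)` and `(tarank T + η) ^ (N n)`, while the degree `d_N` of
`Γ_{T^N}` is between `mflat T ^ N` and `2 ^ m * mflat T ^ N`.
(4) For `T ≠ 0`, `ε > 0`: if `tarank T < mflat T ^ (1 + ε)` then for all large `N` the ratio of Q1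
for `Γ_{T^N}` tends to `0`, and if `tarank T > mflat T ^ (1 + ε)` then it tends to infinity.
(5) If `mflat T ≥ 2` then `tarank T = mflat T` if and only if for every `ε > 0` and all large `N`
the ratio of Q1 for `Γ_{T^N}` tends to `0`.
(6) If `T ≠ 0` and Q1 holds for `Γ_{T^N}` for infinitely many `N` then `tarank T = mflat T`.
(7) If Q1 holds over `K` for all finite schemes then `tarank T = mflat T` for all nonzero tensors
`T` of all orders, and all concise tensors of order three over `K` have minimal asymptotic rank.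
(8) There is a `D` such that for all concise tensors `V` of order three and all `c ≥ D * arank V`
the tensor `T = V ⊕ wten K c` satisfies: for every `ε > 0` and all large `N` the ratio of Q1 for
`Γ_{T^N}` tends to `0`. -/
theorem result :
    (∀ (K : Type) [Field K] (A : Type) [CommRing A] [Algebra K A] (m : ℕ) (ι : Type) [Finite ι]
      (p : Fin m → ι → A) (γ : A →ₗ[K] K) (n D : ℕ), 1 ≤ n → InSmoothable K (Pow K A n) D →
        tarank (fun a : Fin m → ι => γ (∏ j, p j (a j))) ^ n ≤ D) ∧
    (∀ (K : Type) [Field K] (m : ℕ) (ι : Type) [Fintype ι] [DecidableEq ι]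
      (T : (Fin m → ι) → K),
      dgT T = ∑ S : Finset (Fin m), (flat T S).rank ∧
      (∀ n : ℕ, 1 ≤ n → tarank T ^ n ≤ (dgT T : ℝ) ^ n + dlT T n ∧
        dgT T ^ n + dlT T n ≤ (2 ^ m * trk T) ^ n) ∧
      (∀ η : ℝ, 0 < η → ∀ᶠ N : ℕ in atTop, ∀ n : ℕ, 1 ≤ n →
        tarank T ^ (N * n) ≤ (dgT (tpow T N) : ℝ) ^ n + dlT (tpow T N) n ∧
        (dgT (tpow T N) : ℝ) ^ n + dlT (tpow T N) n ≤ (tarank T + η) ^ (N * n)) ∧
      (∀ N : ℕ, (mflat T : ℝ) ^ N ≤ dgT (tpow T N) ∧
        (dgT (tpow T N) : ℝ) ≤ 2 ^ m * (mflat T : ℝ) ^ N) ∧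
      (T ≠ 0 → ∀ ε : ℝ, 0 < ε →
        (tarank T < (mflat T : ℝ) ^ (1 + ε) →
          ∀ᶠ N : ℕ in atTop, Tendsto (ratT (tpow T N) ε) atTop (𝓝 0)) ∧
        ((mflat T : ℝ) ^ (1 + ε) < tarank T →
          ∀ᶠ N : ℕ in atTop, Tendsto (ratT (tpow T N) ε) atTop atTop)) ∧
      (2 ≤ mflat T → (tarank T = mflat T ↔
        ∀ ε : ℝ, 0 < ε → ∀ᶠ N : ℕ in atTop, Tendsto (ratT (tpow T N) ε) atTop (𝓝 0))) ∧
      (T ≠ 0 → (∃ᶠ N : ℕ in atTop, QOne K (ApolarAlg (mform (tpow T N)))) →
        tarank T = mflat T)) ∧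
    (∀ (K : Type) [Field K],
      (∀ (A : Type) [CommRing A] [Algebra K A] [Module.Finite K A] [Nontrivial A], QOne K A) →
        (∀ (m : ℕ) (ι : Type) [Fintype ι] [DecidableEq ι] (T : (Fin m → ι) → K), T ≠ 0 →
          tarank T = mflat T) ∧
        ∀ (v : ℕ) (T : Fin v → Fin v → Fin v → K), 1 ≤ v → Conc T → arank T = v) ∧
    (∀ (K : Type) [Field K], ∃ D : ℕ, 1 ≤ D ∧
      ∀ v c : ℕ, 1 ≤ v → ∀ V : Fin v → Fin v → Fin v → K, Conc V → (D : ℝ) * arank V ≤ c →
        ∀ ε : ℝ, 0 < ε → ∀ᶠ N : ℕ in atTop,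
          Tendsto (ratT (tpow (t3 (dsum V (wten K c))) N) ε) atTop (𝓝 0)) := by
  refine ⟨?_, ?_, ?_, ?_⟩
  · intro K _ A _ _ m ι _ p γ n D hn hS
    exact tarank_pow_le_of_inSmoothable p γ hn hS
  · intro K _ m ι _ _ T
    refine ⟨finrank_mform T, fun n hn => ⟨lower T hn, upper T n⟩, ?_,
      fun N => ⟨le_dgT_tpow T N, dgT_tpow_le T N⟩,
      fun hT ε hε => ⟨rat_tendsto_zero T hT hε, rat_tendsto_atTop T hT hε⟩,
      minimal_iff T, minimal_of_QOne T⟩
    intro η hη
    filter_upwards [eventually_upper T hη, eventually_ge_atTop 1] with N hN hN1 n hn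
    exact ⟨lower_tpow T hN1 hn, hN n⟩
  · intro K _ hQ
    exact ⟨fun m ι _ _ T hT => minimal_of_Q1 K hQ T hT, conc_minimal_of_Q1 K hQ⟩
  · intro K _
    exact examples K

end Pool.Agent.Results.MP_44217d_ag.TensorThreshold
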